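import Pool.Agent.H20.S3.Cap4
import Pool.Agent.H27.OP.Wt

set_option autoImplicit false
set_option linter.unusedSectionVars false

/-!
# Full Ottaviani-Paoletti: definitions

One Fock space (`S : Fk σ k (End F) d`, `A : Gr S`), a distinguished variable `o : σ`.
Letters `μ ∈ Mo σ d` are sorted by `μ o`.

* `dS` : letters `μ o = 0`, value `x^μ`;
* `dA` : letters `μ o ≥ 1`, value `x^(μ - δ_o)`;
* `d1` : letters `μ o = 1`, value `x^(μ - δ_o)`;
* `d2` : letters `μ o ≥ 2`, value `x^(μ - 2 δ_o)`.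

`del = dS + x_o dA`, `dA = d1 + x_o d2`.

* `Gm s i m` : `s` letters with `μ o = 0`, `i` letters with `μ o = 1`, no other letters,
  coefficients of degree `m` without `x_o` (the two species Fock space over the other variables);
* `Ga s i m` : the elements of `Gm s i m` which are closed for `dS` and `d1`.
-/

open MvPolynomial

namespace Pool.Agent.H20.OPF

open Pool.Agent.H27.OP

variable {σ k : Type*} [Fintype σ] [Field k]

section ring

variable {O : Type*} [Ring O] [Algebra k O] {d : ℕ} (S : Fk σ k O d) (o : σ)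

noncomputable def dS (S : Fk σ k O d) (o : σ) : O :=
  ∑ μ ∈ (Mo σ d).filter (fun μ => μ o = 0), S.m (monomial μ 1) * S.J μ

noncomputable def dA (S : Fk σ k O d) (o : σ) : O :=
  ∑ μ ∈ (Mo σ d).filter (fun μ => 1 ≤ μ o), S.m (monomial (μ - Finsupp.single o 1) 1) * S.J μ

noncomputable def d1 (S : Fk σ k O d) (o : σ) : O :=
  ∑ μ ∈ (Mo σ d).filter (fun μ => μ o = 1), S.m (monomial (μ - Finsupp.single o 1) 1) * S.J μ

noncomputable def d2 (S : Fk σ k O d) (o : σ) : O :=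
  ∑ μ ∈ (Mo σ d).filter (fun μ => 2 ≤ μ o), S.m (monomial (μ - Finsupp.single o 2) 1) * S.J μ

/-- number of letters without `x_o` -/
noncomputable def N0 (S : Fk σ k O d) (o : σ) : O :=
  ∑ μ ∈ (Mo σ d).filter (fun μ => μ o = 0), S.E μ * S.J μ

/-- number of letters with `μ o = 1` -/
noncomputable def N1 (S : Fk σ k O d) (o : σ) : O :=
  ∑ μ ∈ (Mo σ d).filter (fun μ => μ o = 1), S.E μ * S.J μ

lemma mono_sub {μ : σ →₀ ℕ} {j : ℕ} (h : j ≤ μ o) :
    (monomial μ (1 : k)) = X o ^ j * monomial (μ - Finsupp.single o j) 1 := by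
  have h1 : Finsupp.single o j + (μ - Finsupp.single o j) = μ := by
    ext y
    by_cases hy : y = o
    · subst hy
      simp only [Finsupp.coe_add, Finsupp.coe_tsub, Pi.add_apply, Pi.sub_apply,
        Finsupp.single_eq_same]
      omega
    · simp [Finsupp.single_eq_of_ne hy]
  rw [X_pow_eq_monomial, monomial_mul, one_mul, h1]

lemma del_eq_dS_dA : S.del = dS S o + S.m (X o) * dA S o := by
  classical
  have h1 : (Mo σ d) = (Mo σ d).filter (fun μ => μ o = 0) ∪ (Mo σ d).filter (fun μ => 1 ≤ μ o) := by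
    rw [← Finset.filter_or, Finset.filter_true_of_mem]
    intro μ _
    omega
  have h2 : Disjoint ((Mo σ d).filter (fun μ => μ o = 0)) ((Mo σ d).filter (fun μ => 1 ≤ μ o)) := by
    rw [Finset.disjoint_filter]
    intro μ _ h
    omega
  rw [Fk.del_eq, h1, Finset.sum_union h2, dS, dA, Finset.mul_sum]
  congr 1
  refine Finset.sum_congr rfl fun μ hμ => ?_
  rw [mono_sub o (Finset.mem_filter.mp hμ).2, pow_one, map_mul, mul_assoc]

lemma dA_eq_d1_d2 : dA S o = d1 S o + S.m (X o) * d2 S o := by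
  classical
  have h1 : (Mo σ d).filter (fun μ => 1 ≤ μ o)
      = (Mo σ d).filter (fun μ => μ o = 1) ∪ (Mo σ d).filter (fun μ => 2 ≤ μ o) := by
    rw [← Finset.filter_or]
    refine Finset.filter_congr fun μ _ => ?_
    omega
  have h2 : Disjoint ((Mo σ d).filter (fun μ => μ o = 1)) ((Mo σ d).filter (fun μ => 2 ≤ μ o)) := by
    rw [Finset.disjoint_filter]
    intro μ _ h
    omega
  rw [dA, h1, Finset.sum_union h2, d1, d2, Finset.mul_sum]
  congr 1
  refine Finset.sum_congr rfl fun μ hμ => ?_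
  have h3 := (Finset.mem_filter.mp hμ).2
  have h4 : μ - Finsupp.single o 1 - Finsupp.single o 1 = μ - Finsupp.single o 2 := by
    rw [tsub_tsub, ← Finsupp.single_add]
  have h5 : 1 ≤ (μ - Finsupp.single o 1 : σ →₀ ℕ) o := by
    simp only [Finsupp.coe_tsub, Pi.sub_apply, Finsupp.single_eq_same]
    omega
  rw [mono_sub o h5, pow_one, h4, map_mul, mul_assoc]

end ring

section

variable {F : Type*} [AddCommGroup F] [Module k F] {d : ℕ}
variable {S : Fk σ k (Module.End k F) d} (A : Gr S) (o : σ)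

/-- the two species Fock space over the variables `≠ o` -/
noncomputable def Gm (A : Gr S) (o : σ) (s i m : ℕ) : Submodule k F where
  carrier := {ω | ω ∈ A.G (s + i) m ∧ S.T o ω = 0 ∧ (∀ μ ∈ Mo σ d, 2 ≤ μ o → S.J μ ω = 0) ∧
    S.D (X o) o ω = (i : k) • ω}
  add_mem' := by
    rintro x y ⟨h1, h2, h3, h4⟩ ⟨g1, g2, g3, g4⟩
    refine ⟨add_mem h1 g1, by rw [map_add, h2, g2, add_zero], fun μ hμ h => ?_, ?_⟩
    · rw [map_add, h3 μ hμ h, g3 μ hμ h, add_zero]
    · rw [map_add, h4, g4, smul_add]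
  zero_mem' := ⟨zero_mem _, map_zero _, fun _ _ _ => map_zero _, by rw [map_zero, smul_zero]⟩
  smul_mem' := by
    rintro t x ⟨h1, h2, h3, h4⟩
    refine ⟨Submodule.smul_mem _ _ h1, by rw [map_smul, h2, smul_zero], fun μ hμ h => ?_, ?_⟩
    · rw [map_smul, h3 μ hμ h, smul_zero]
    · rw [map_smul, h4, smul_comm]

lemma mem_Gm {s i m : ℕ} {ω : F} : ω ∈ Gm A o s i m ↔ ω ∈ A.G (s + i) m ∧ S.T o ω = 0 ∧
    (∀ μ ∈ Mo σ d, 2 ≤ μ o → S.J μ ω = 0) ∧ S.D (X o) o ω = (i : k) • ω := Iff.rfl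

/-- the bi-closed elements -/
noncomputable def Ga (A : Gr S) (o : σ) (s i m : ℕ) : Submodule k F :=
  Gm A o s i m ⊓ (LinearMap.ker (dS S o) ⊓ LinearMap.ker (d1 S o))

lemma mem_Ga {s i m : ℕ} {ω : F} : ω ∈ Ga A o s i m ↔
    ω ∈ Gm A o s i m ∧ dS S o ω = 0 ∧ d1 S o ω = 0 := by
  unfold Ga
  rw [Submodule.mem_inf, Submodule.mem_inf, LinearMap.mem_ker, LinearMap.mem_ker]

/-- **Shape theorem** (statement, part (S); captain helper10). -/
def ShapeStatement (A : Gr S) (o : σ) : Prop :=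
  ∀ s i : ℕ, 2 ≤ s → s + i + 3 ≤ 3 * d → ∀ N : Submodule k F,
    (∀ x y : σ, x ≠ o → y ≠ o → ∀ z ∈ N, S.D (X x) y z ∈ N) →
    (∀ z ∈ Ga A o s i (2 * d), ∀ x : σ, x ≠ o → ∀ w : ℕ, 6 * d - 6 - (2 * s + i) < w →
      S.D (X x) x z = (w : k) • z → z ∈ N) →
    (∀ q : MvPolynomial σ k, q.IsHomogeneous d → pderiv o q = 0 → ∀ z ∈ Ga A o s i d,
      S.m q z ∈ N) →
    Ga A o s i (2 * d) ≤ N

end

end Pool.Agent.H20.OPF
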