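import Pool.Agent.H10.OP.Step
import Pool.Agent.H33.OP.Chain

set_option autoImplicit false
set_option linter.unusedSectionVars false

/-!
# Full Ottaviani-Paoletti: the chain of rows (end of part (S))

`step_le` : helper10's extraction of one row, with the additional information `v ≤ q`.
`chain_of` : the chain of rows (`H33.OPC.chain`).
`shape_of` : the shape theorem.
-/

open MvPolynomial

namespace Pool.Agent.H20.OPF

open Pool.Agent.H27.OP Pool.Agent.H20.S3 Pool.Agent.H10.OP

variable {σ k : Type*} [Fintype σ] [Field k]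
variable {F : Type*} [AddCommGroup F] [Module k F] {d : ℕ}
variable {S : Fk σ k (Module.End k F) d} (A : Gr S)
variable {XF : Type*} [AddCommGroup XF] [Module k XF] (Y : Xt S XF)
variable {c : σ} {Z : Finset σ} {e s i m : ℕ}

lemma cs_le (c : σ) (Z : Finset σ) (l : List (σ →₀ ℕ)) (h : ∀ ν ∈ l, Good c Z ν) :
    cs c l ≤ l.length := by
  induction l with
  | nil => simp [cs]
  | cons ν l ih =>
    have h1 := ih fun μ hμ => h μ (List.mem_cons_of_mem _ hμ)
    have h2 := (h ν List.mem_cons_self).1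
    unfold cs at h1 ⊢
    rw [List.map_cons, List.sum_cons, List.length_cons]
    omega

include A Y

theorem step_le [CharZero k] (hd : d = e + 1) (hc : c ∉ Z) (hgen : Gener S A c) {R : ℤ}
    {K : Submodule k F} (hK : Clo S A c Z s i (m + 1) R K)
    (hnot : ¬ Gam S A c Z s i (m + 1) ≤ K) :
    ∃ Z' : Finset σ, Z' ⊆ Z ∧ ∃ q : ℕ, Z'.card = q + 1 ∧
      (((d : ℤ) - 1) * (s + i) + s + (m + 1) ≤ (q + 1) * R) ∧
      (0 < s + i → 1 ≤ q) ∧
      (s + i ≤ q + 1 + m → ∃ s' i' v : ℕ, ∃ K' : Submodule k F, v ≤ q ∧ s' + q = s + v ∧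
        i' + v = i ∧
        Clo S A c Z' s' i' m (R - 1) K' ∧ ¬ Gam S A c Z' s' i' m ≤ K') := by
  classical
  obtain ⟨κ, hκ, hκK, w, hw, L, hLn, hL, hLp, hsum⟩ := extremal A hc hK.op hnot
  have hLZ : ∀ x ∈ L, x ∈ Z := fun x hx => ((hL x).mp hx).1
  have hZ : L.toFinset ⊆ Z := fun x hx => hLZ x (List.mem_toFinset.mp hx)
  have hc' : c ∉ L.toFinset := fun hh => hc (hZ hh)
  have hκ' : κ ∈ Gam S A c L.toFinset s i (m + 1) := by
    refine Gam_restrict A hc hκ hZ fun x hx hx' => ?_
    have h1 : w x = 0 := by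
      by_contra h2
      exact hx' (List.mem_toFinset.mpr ((hL x).mpr ⟨hx, h2⟩))
    rw [hw, h1, Nat.cast_zero, zero_smul]
  have hcard : L.toFinset.card = L.length := List.toFinset_card_of_nodup hLn
  have hwR : ∀ x ∈ L, (w x : ℤ) ≤ R := by
    intro x hx
    by_contra h1
    exact hκK (hK.wt κ hκ x (hLZ x hx) (w x) (not_le.mp h1) (hw x))
  have hsum' := sum_le_mul L hwR
  have hpos : 0 < L.length := by
    rcases L with _ | ⟨x, L⟩
    · simp only [List.map_nil, List.sum_nil, zero_add] at hsum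
      exfalso
      have h1 : i ≤ d * (s + i) := by
        rw [hd]
        nlinarith
      omega
    · simp
  obtain ⟨q, hq⟩ : ∃ q, L.length = q + 1 := ⟨L.length - 1, by omega⟩
  refine ⟨L.toFinset, hZ, q, by rw [hcard, hq], ?_, ?_, ?_⟩
  · have h1 : (((L.map w).sum : ℕ) : ℤ) + i = (m + 1) + d * (s + i) := by
      exact_mod_cast hsum
    rw [hq] at hsum'
    push_cast at hsum' h1 ⊢
    linarith
  · intro hsi
    by_contra h1
    have h2 : L.toFinset.card ≤ 1 := by omega
    exact hκK (by rw [one_var A (by omega) hc' h2 hsi hκ']; exact zero_mem _)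
  · intro hgc
    by_contra hcon
    push Not at hcon
    refine hκK (row A Y hd hc hgen hZ hLn (fun x => List.mem_toFinset.symm) hq hgc hκ hκ' hw hK.op
      hLp (fun z hz => ((hL z).mp hz).2) ?_)
    intro s' i' v h1 h2
    rcases Nat.lt_or_ge q v with hv | hv
    · intro y _ l hl hlq hlv
      have := cs_le c L.toFinset l fun ν hν => (hl ν hν).2
      omega
    · exact hcon s' i' v _ hv h1 h2
        (Kp_Clo A Y hd hc hZ hK hLn (fun x => List.mem_toFinset.symm) hq h1 h2)

theorem chain_of [CharZero k] (hd : 2 ≤ d) (hc : c ∉ Z) (hgen : Gener S A c) (hs : 2 ≤ s)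
    (hsi : s + i + 3 ≤ 3 * d) {K : Submodule k F}
    (hK : Clo S A c Z s i (2 * d) (6 * (d : ℤ) - 6 - 2 * s - i) K) :
    Gam S A c Z s i (2 * d) ≤ K := by
  by_contra hnot
  refine H33.OPC.chain d s i hd hs hsi (fun j a b => ∃ Z' : Finset σ, c ∉ Z' ∧
    ∃ K' : Submodule k F, Clo S A c Z' a b (2 * d - j) (6 * (d : ℤ) - 6 - 2 * s - i - j) K' ∧
      ¬ Gam S A c Z' a b (2 * d - j) ≤ K') ?_ ?_ ⟨Z, hc, K, by simpa using hK, by simpa using hnot⟩
  · rintro j a b hj ⟨Z', hc', K', hK', hnot'⟩ hab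
    obtain ⟨m, hm⟩ : ∃ m, 2 * d - j = m + 1 := ⟨2 * d - j - 1, by omega⟩
    rw [hm] at hK' hnot'
    obtain ⟨Z2, hZ2, q, hcard, h1, h2, h3⟩ := step_le A Y (e := d - 1) (by omega) hc' hgen hK' hnot'
    have hq := h2 hab
    refine ⟨q + 1, by omega, ?_, ?_⟩
    · have h4 : ((2 * d - j : ℕ) : ℤ) = m + 1 := by rw [hm]; push_cast; ring
      rw [Nat.cast_sub (by omega)] at h4
      push_cast at h4 h1 ⊢
      linarith
    · intro h5
      have h6 : a + b ≤ q + 1 + m := by clear h3 h1; omega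
      obtain ⟨s', i', v, K2, hv, e1, e2, hK2, hn2⟩ := h3 h6
      clear h3 h1
      have hm' : 2 * d - (j + 1) = m := by omega
      have f1 : q - v + v + 1 = q + 1 := by omega
      have f2 : q - v ≤ a := by omega
      have f3 : v ≤ b := by omega
      have f4 : a - (q - v) = s' := by omega
      have f5 : b - v = i' := by omega
      refine ⟨q - v, v, f1, f2, f3, Z2, fun h => hc' (hZ2 h), K2, ?_, ?_⟩
      · rw [hm', f4, f5]
        have e3 : (6 * (d : ℤ) - 6 - 2 * s - i - ((j + 1 : ℕ) : ℤ))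
          = 6 * (d : ℤ) - 6 - 2 * s - i - j - 1 := by push_cast; ring
        rw [e3]
        exact hK2
      · rw [hm', f4, f5]
        exact hn2
  · rintro j a b ⟨Z', hc', K', hK', hnot'⟩ hab
    by_contra hj
    obtain ⟨rfl, rfl⟩ : a = 0 ∧ b = 0 := by omega
    exact hnot' (zero_letters A hc' (by omega) hK')

/-- **the shape theorem** -/
theorem shape_of [CharZero k] (hd : 2 ≤ d) (c : σ) (hgen : Gener S A c) : ShapeStatement A c := by
  classical
  intro s i hs hsi N hop hwt hml
  rw [← Gam_univ A s i (2 * d)]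
  refine chain_of A Y hd (by simp) hgen hs hsi ⟨?_, ?_, ?_⟩
  · intro κ hκ x hx w hw hD
    rw [Gam_univ A s i (2 * d)] at hκ
    refine hwt κ hκ x (by simpa using hx) w ?_ hD
    omega
  · intro m' hm' κ hκ μ hμ h0
    have e1 : m' = d := by omega
    subst e1
    rw [Gam_univ A s i m'] at hκ
    refine hml _ (isHomogeneous_monomial _ (mem_Mo.mp hμ)) ?_ κ hκ
    rw [pderiv_monomial, h0 c (by simp), Nat.cast_zero, mul_zero, monomial_zero]
  · intro κ _ hκN x hx y hy
    exact hop x y (by simpa using hx) (by simpa using hy) κ hκN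

end Pool.Agent.H20.OPF
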