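import Pool.Agent.H27.OP.Final

set_option autoImplicit false
set_option linter.unusedSectionVars false

/-!
# Full Ottaviani-Paoletti: the statements and the main induction

`Exact r d p K` : the Koszul complex of the forms of degree `d` in `r` variables (any basis) is exact
at exterior degree `p` and coefficient degree `K`.

`main_of` : the main induction on `d`, and for fixed `d` on the number `r` of variables, from
* `h1` : the case `d = 1`;
* `h0` : no variables;
* `hk` : the reduction of `K > 2 d` to `K = 2 d` (fixed `r`);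
* `hstep` : the step for `K = 2 d`, `p ≤ 3 d - 3`: from degree `d - 1` (any number of variables) and
  degree `d` in `r` variables to degree `d` in `r + 1` variables.
-/

open MvPolynomial

namespace Pool.Agent.H20.OPF

open Pool.Agent.H27.OP

/-- exactness of the Koszul complex, for every basis -/
def Exact (r d p K : ℕ) : Prop :=
  ∀ (N : ℕ) (B : Bs (Fin r) ℂ N d) (κ : Finset (Fin N) → MvPolynomial (Fin r) ℂ),
    κ ∈ GK (Fin r) ℂ N p K → (SK B).del κ = 0 → κ ∈ LinearMap.range (SK B).del

/-- what the induction knows in degree `d` and `r` variables -/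
def KnownAt (r d : ℕ) : Prop :=
  ∀ p K : ℕ, 2 * d ≤ K → p + d + 3 ≤ 2 * K → Exact r d p K

/-- what the induction knows in degree `d` -/
def Known (d : ℕ) : Prop := ∀ r : ℕ, KnownAt r d

/-- the reduction of `K > 2 d` to `K = 2 d` (note 1713 (0)), for a fixed number of variables -/
def KRed (d : ℕ) : Prop :=
  ∀ r P : ℕ, (∀ p : ℕ, p ≤ P → Exact r d p (2 * d)) →
    ∀ k p : ℕ, p ≤ P + 2 * k → Exact r d p (2 * d + k)

/-- the step at `K = 2 d` -/
def Step (d : ℕ) : Prop :=
  Known (d - 1) → ∀ r : ℕ, KnownAt r d → ∀ p : ℕ, p + 3 ≤ 3 * d → Exact (r + 1) d p (2 * d)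

theorem main_of (h1 : Known 1) (h0 : ∀ d, 2 ≤ d → ∀ p, Exact 0 d p (2 * d))
    (hk : ∀ d, 2 ≤ d → KRed d) (hstep : ∀ d, 2 ≤ d → Step d) :
    ∀ d, 1 ≤ d → Known d := by
  intro d hd
  induction d, hd using Nat.le_induction with
  | base => exact h1
  | succ d hd ih =>
    have hd2 : 2 ≤ d + 1 := by omega
    have key : ∀ r : ℕ, (∀ p, p + 3 ≤ 3 * (d + 1) → Exact r (d + 1) p (2 * (d + 1))) →
        KnownAt r (d + 1) := by
      intro r h p K hK hp
      obtain ⟨k, rfl⟩ : ∃ k, K = 2 * (d + 1) + k := ⟨K - 2 * (d + 1), by omega⟩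
      exact hk (d + 1) hd2 r (3 * (d + 1) - 3) (fun a ha => h a (by omega)) k p (by omega)
    intro r
    induction r with
    | zero => exact key 0 fun p _ => h0 (d + 1) hd2 p
    | succ r ihr =>
      refine key (r + 1) fun p hp => ?_
      exact hstep (d + 1) hd2 (by rw [Nat.add_sub_cancel]; exact ih) r ihr p hp

end Pool.Agent.H20.OPF
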