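import Pool.Agent.H20.OPF.Exact

set_option autoImplicit false
set_option linter.unusedSectionVars false

/-!
# Full Ottaviani-Paoletti: the case `d = 1`

The Koszul complex of the linear forms: `del h + h del = m + p` on `G p m` for
`h = ∑ x, E_x ∂_x`.
-/

open MvPolynomial

namespace Pool.Agent.H20.OPF

open Pool.Agent.H27.OP

lemma Mo_one {σ : Type*} [Fintype σ] {M : Type*} [AddCommMonoid M] (f : (σ →₀ ℕ) → M) :
    ∑ μ ∈ Mo σ 1, f μ = ∑ x, f (Finsupp.single x 1) := by
  classical
  have h : Mo σ 1 = Finset.univ.image (fun x : σ => Finsupp.single x 1) := by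
    ext μ
    have h1 : μ ∈ Set.range (fun a : σ => Finsupp.single a 1) ↔ μ.degree = 1 := by
      rw [Finsupp.range_single_one]
      rfl
    rw [mem_Mo, ← h1, Finset.mem_image, Set.mem_range]
    simp
  rw [h, Finset.sum_image]
  intro x _ y _ hxy
  exact Finsupp.single_left_injective one_ne_zero hxy

theorem one_exact {σ k F : Type*} [Fintype σ] [Field k] [CharZero k] [AddCommGroup F] [Module k F]
    {S : Fk σ k (Module.End k F) 1} (A : Gr S) {p m : ℕ} {κ : F} (h : κ ∈ A.G p m) (hm : 1 ≤ m)
    (hz : S.del κ = 0) : κ ∈ LinearMap.range S.del := by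
  classical
  have h1 : ∀ x : σ, S.del (S.T x κ) = - S.J (Finsupp.single x 1) κ := by
    intro x
    have h2 := congrArg (fun f : Module.End k F => f κ) (S.T_del x)
    simp only [Module.End.mul_apply, LinearMap.add_apply, hz, map_zero, LinearMap.sum_apply] at h2
    rw [Mo_one, Finset.sum_eq_single x] at h2
    · have h3 : pderiv x (monomial (Finsupp.single x 1) (1 : k)) = 1 := by
        rw [pderiv_monomial, Finsupp.single_eq_same, tsub_self, Nat.cast_one, mul_one]
        rfl
      rw [h3, map_one, Module.End.one_apply] at h2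
      exact eq_neg_of_add_eq_zero_left h2.symm
    · intro y _ hy
      have h3 : pderiv x (monomial (Finsupp.single y 1) (1 : k)) = 0 := by
        rw [pderiv_monomial, Finsupp.single_eq_of_ne hy.symm, Nat.cast_zero, mul_zero,
          monomial_zero]
      rw [h3, map_zero, LinearMap.zero_apply]
    · intro hx
      exact absurd (Finset.mem_univ x) hx
  have h4 : S.del (∑ x, S.E (Finsupp.single x 1) (S.T x κ)) = ((m : k) + (p : k)) • κ := by
    rw [map_sum]
    have h5 : ∀ x : σ, S.del (S.E (Finsupp.single x 1) (S.T x κ))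
        = S.m (X x) (S.T x κ) + S.E (Finsupp.single x 1) (S.J (Finsupp.single x 1) κ) := by
      intro x
      have hx : (Finsupp.single x 1 : σ →₀ ℕ) ∈ Mo σ 1 := by
        rw [mem_Mo, Finsupp.degree_single]
      have h6 : (monomial (Finsupp.single x 1) (1 : k)).IsHomogeneous 1 :=
        isHomogeneous_monomial _ (mem_Mo.mp hx)
      have h7 := congrArg (fun f : Module.End k F => f (S.T x κ)) (S.del_Ee h6)
      simp only [Module.End.mul_apply, LinearMap.sub_apply, S.Ee_monomial hx] at h7
      rw [h7, h1 x, map_neg, sub_neg_eq_add]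
      rfl
    rw [Finset.sum_congr rfl fun x _ => h5 x, Finset.sum_add_distrib, A.eul h, add_smul]
    congr 1
    rw [← A.num h, Mo_one]
  have h8 : ((m : k) + (p : k)) ≠ 0 := by
    rw [← Nat.cast_add]
    exact Nat.cast_ne_zero.mpr (by omega)
  refine ⟨((m : k) + (p : k))⁻¹ • ∑ x, S.E (Finsupp.single x 1) (S.T x κ), ?_⟩
  rw [map_smul, h4, smul_smul, inv_mul_cancel₀ h8, one_smul]

/-- **(M1)** -/
theorem known_one : Known 1 := by
  intro r p K hK _ N B κ hκ hz
  exact one_exact (AK B) hκ (by omega) hz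

/-- **(M0)** no variables -/
theorem zero_vars {σ k F : Type*} [Fintype σ] [Field k] [CharZero k] [AddCommGroup F] [Module k F]
    [IsEmpty σ] {d : ℕ} {S : Fk σ k (Module.End k F) d} (A : Gr S) {p m : ℕ} {κ : F}
    (h : κ ∈ A.G p m) (hm : 1 ≤ m) : κ = 0 := by
  have h1 := A.eul h
  rw [Finset.univ_eq_empty, Finset.sum_empty] at h1
  have h2 : (m : k) ≠ 0 := Nat.cast_ne_zero.mpr (by omega)
  exact (smul_eq_zero.mp h1.symm).resolve_left h2

end Pool.Agent.H20.OPF
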