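import Pool.Agent.H40.OP.StepOf
import Pool.Agent.H12.OP.T5
import Pool.Agent.H10.OP.Chain
import Pool.Agent.H10.OP.Gen
import Pool.Agent.H95.OP.KRed
import Pool.Agent.H38.OPM.Frozen
import Pool.Agent.H20.OPF.One

set_option autoImplicit false
set_option linter.unusedSectionVars false

/-!
# Full Ottaviani-Paoletti: assembly

`known_all` : for all `d ≥ 1`, all numbers of variables, `2 d ≤ K` and `p + d + 3 ≤ 2 K`, the Koszul
complex of the forms of degree `d` is exact at exterior degree `p` and coefficient degree `K`.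
-/

open MvPolynomial

namespace Pool.Agent.H20.OPF

open Pool.Agent.H27.OP

/-- the shape theorem in the model -/
theorem shape_model {d : ℕ} (hd : 2 ≤ d) (N r : ℕ) (B : Bs (Fin (r + 1)) ℂ N d) :
    ShapeStatement (AK B) (0 : Fin (r + 1)) :=
  Pool.Agent.H10.OP.shape (AK B) (XK B) hd 0 (Pool.Agent.H10.OP.gener hd (AK B) 0)

theorem step_all {d : ℕ} (hd : 2 ≤ d) : Step d :=
  Pool.Agent.H40.OP.step_of hd
    (fun _ _ _ _ _ _ C H h he hp _ hw hz => Pool.Agent.H12.OP.final C he hp H h hw hz)
    (fun N r B => shape_model hd N r B)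

theorem known_all : ∀ d, 1 ≤ d → Known d :=
  main_of known_one
    (fun _ _ _ => Pool.Agent.H18.OPM.exact_fin0 (by omega))
    (fun d hd => Pool.Agent.H95.OP.kred d hd)
    (fun _ hd => step_all hd)

end Pool.Agent.H20.OPF
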