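import Pool.Agent.H12.OP.T4

set_option autoImplicit false
set_option linter.unusedSectionVars false

/-!
# Full Ottaviani-Paoletti: the junction between the shape theorem (S) and the claim (T)

`GZ_eq` : helper12's `GZ` (closed leading terms without letters `μ o ≥ 2`) is `Ga`.
`shZ_of` : `ShapeStatement` implies `ShZ`.
-/

open MvPolynomial

namespace Pool.Agent.H20.OPF

open Pool.Agent.H27.OP Pool.Agent.H80.OP Pool.Agent.H40.OP Pool.Agent.H40.OPR Pool.Agent.H12.OP

variable {σ k F : Type} [Fintype σ] [Field k] [AddCommGroup F] [Module k F] {e : ℕ}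
variable [CharZero k] {S : Fk σ k (Module.End k F) (e + 1)} {A : Gr S} {o : σ} {K : BiK k F e}

omit [CharZero k] in
/-- `d2` vanishes without letters `μ o ≥ 2` -/
lemma d2_zero {y : F} (hJ : ∀ μ ∈ Mo σ (e + 1), 2 ≤ μ o → S.J μ y = 0) : d2 S o y = 0 := by
  unfold d2
  rw [LinearMap.sum_apply]
  refine Finset.sum_eq_zero fun μ hμ => ?_
  rw [Finset.mem_filter] at hμ
  rw [Module.End.mul_apply, hJ μ hμ.1 hμ.2, map_zero]

omit [CharZero k] in
/-- `d1 y` has coefficients without `X o` -/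
lemma T_d1 {y : F} (hT : S.T o y = 0) : S.T o (d1 S o y) = 0 := by
  unfold d1
  rw [LinearMap.sum_apply, map_sum]
  refine Finset.sum_eq_zero fun μ hμ => ?_
  rw [Finset.mem_filter] at hμ
  rw [Module.End.mul_apply]
  have h0 : (μ - Finsupp.single o 1 : σ →₀ ℕ) o = 0 := by
    rw [Finsupp.tsub_apply, hμ.2, Finsupp.single_eq_same]
  have h1 := congrArg (fun f : Module.End k F => f (S.J μ y))
    (S.Tm o (monomial (μ - Finsupp.single o 1) (1 : k)))
  have h2 := congrArg (fun f : Module.End k F => f y) (S.TJ o μ)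
  simp only [Module.End.mul_apply, LinearMap.add_apply] at h1 h2
  rw [h1, h2, hT, map_zero, map_zero, zero_add, pderiv_monomial, h0, Nat.cast_zero, mul_zero,
    monomial_zero, map_zero, LinearMap.zero_apply]

omit [CharZero k] in
/-- `rho (dA y) = d1 y` for `y` without letters `μ o ≥ 2` and without `X o` -/
lemma rho_dA_eq (C : Cmp S A o K) {y : F} (hT : S.T o y = 0)
    (hJ : ∀ μ ∈ Mo σ (e + 1), 2 ≤ μ o → S.J μ y = 0) : K.rho (K.dA y) = d1 S o y := by
  rw [C.dA_eq, dA_eq_d1_d2 S o, LinearMap.add_apply, Module.End.mul_apply, d2_zero hJ, map_zero,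
    add_zero, C.rho_of_T _ (T_d1 hT)]

/-- the number of letters `μ o = 0` -/
lemma N0_of {s i m : ℕ} {y : F} (h1 : y ∈ A.G (s + i) m) (hT : S.T o y = 0)
    (hJ : ∀ μ ∈ Mo σ (e + 1), 2 ≤ μ o → S.J μ y = 0) (hD : S.D (X o) o y = (i : k) • y) :
    N0 S o y = (s : k) • y := by
  have hn : ∑ μ ∈ Mo σ (e + 1), S.E μ (S.J μ y)
      = N0 S o y + ∑ μ ∈ Mo σ (e + 1), ((μ o : ℕ) : k) • S.E μ (S.J μ y) := by
    unfold N0
    rw [LinearMap.sum_apply, Finset.sum_filter, ← Finset.sum_add_distrib]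
    refine Finset.sum_congr rfl fun μ hμ => ?_
    rcases Nat.lt_or_ge (μ o) 2 with h | h
    · by_cases h0 : μ o = 0
      · rw [if_pos h0, h0, Nat.cast_zero, zero_smul, add_zero, Module.End.mul_apply]
      · have h2 : μ o = 1 := by omega
        rw [if_neg h0, h2, Nat.cast_one, one_smul, zero_add]
    · have h0 : ¬ μ o = 0 := by omega
      rw [if_neg h0, hJ μ hμ h, map_zero, smul_zero, add_zero]
  have h2 := A.num h1
  have h3 : S.D (X o) o y = ∑ μ ∈ Mo σ (e + 1), ((μ o : ℕ) : k) • S.E μ (S.J μ y) := by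
    rw [D_diag, hT, map_zero, zero_add]
  rw [hn, ← h3, hD, Nat.cast_add, add_smul] at h2
  exact add_right_cancel h2

theorem GZ_eq (C : Cmp S A o K) (s i m : ℕ) : GZ S o K s i m = Ga A o s i m := by
  ext y
  rw [mem_GZ, mem_Cl, mem_Ga, mem_Gm]
  constructor
  · rintro ⟨⟨h1, h2, h3, h4⟩, h5⟩
    have hT : S.T o y = 0 := by rw [← h2]; exact C.T_rho y
    have hG := (C.G_iff.mp h1)
    refine ⟨⟨hG.1, hT, h5, Doo_GZ C (mem_GZ.mpr ⟨⟨h1, h2, h3, h4⟩, h5⟩)⟩, ?_, ?_⟩
    · rw [← C.dS_eq]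
      exact h3
    · rw [← rho_dA_eq C hT h5]
      exact h4
  · rintro ⟨⟨h1, h2, h3, h4⟩, h5, h6⟩
    refine ⟨⟨C.G_iff.mpr ⟨h1, N0_of h1 h2 h3 h4⟩, C.rho_of_T _ h2, ?_, ?_⟩, h3⟩
    · rw [C.dS_eq]
      exact h5
    · rw [rho_dA_eq C h2 h3]
      exact h6

omit [CharZero k] in
lemma pderiv_of_mem {q : MvPolynomial σ k} (h : pderiv o q = 0) [CharZero k] {ν : σ →₀ ℕ}
    (hν : ν ∈ q.support) : ν o = 0 := by
  by_contra h0
  have h1 : coeff (ν - Finsupp.single o 1) (pderiv o q) = 0 := by rw [h, coeff_zero]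
  have h2 : ν - Finsupp.single o 1 + Finsupp.single o 1 = ν := by
    ext z
    by_cases hz : z = o
    · subst hz
      simp only [Finsupp.coe_add, Finsupp.coe_tsub, Pi.add_apply, Pi.sub_apply,
        Finsupp.single_eq_same]
      omega
    · simp [Finsupp.single_eq_of_ne hz]
  rw [coeff_pderiv, h2] at h1
  rcases mul_eq_zero.mp h1 with h3 | h3
  · exact mem_support_iff.mp hν h3
  · have : ((((ν - Finsupp.single o 1 : σ →₀ ℕ) o) + 1 : ℕ) : k) = 0 := by push_cast; exact h3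
    exact absurd this (Nat.cast_ne_zero.mpr (by omega))

/-- **The junction.** -/
theorem shZ_of (C : Cmp S A o K) (he : 1 ≤ e) (h : ShapeStatement A o) : ShZ S o K := by
  obtain ⟨Q⟩ := exists_KV S o he 0
  intro s i hs hsi N hw hm ho
  have e1 : 2 * (e + 1) = 2 * e + 2 := by ring
  have key : Ga A o s i (2 * (e + 1)) ≤ N ⊓ Ga A o s i (2 * (e + 1)) := by
    refine h s i hs (by omega) _ ?_ ?_ ?_
    · rintro x y hx hy z ⟨hz1, hz2⟩
      have hz3 : z ∈ GZ S o K s i (2 * e + 2) := by rw [GZ_eq C, ← e1]; exact hz2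
      refine ⟨ho z hz3 hz1 x y hx hy, ?_⟩
      have := Dxy_GZ C hx hy hz3
      rw [GZ_eq C, ← e1] at this
      exact this
    · intro z hz x hx w hwt hD
      refine ⟨hw z ?_ x hx w (by omega) hD, hz⟩
      rw [GZ_eq C, ← e1]
      exact hz
    · intro q hq hq0 z hz
      have hz3 : z ∈ GZ S o K s i (e + 1) := by rw [GZ_eq C]; exact hz
      have h1 : S.m q z = ∑ ν ∈ q.support, coeff ν q • S.m (monomial ν 1) z := by
        conv_lhs => rw [q.as_sum]
        rw [map_sum, LinearMap.sum_apply]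
        refine Finset.sum_congr rfl fun ν _ => ?_
        have h2 : (monomial ν (coeff ν q) : MvPolynomial σ k) = MvPolynomial.C (coeff ν q) * monomial ν 1 := by
          rw [C_mul_monomial, mul_one]
        rw [← smul_eq_C_mul] at h2
        rw [h2, map_smul, LinearMap.smul_apply]
      have h3 : ∀ ν ∈ q.support, S.m (monomial ν 1) z ∈ N ⊓ Ga A o s i (2 * (e + 1)) := by
        intro ν hν
        have h4 : ν ∈ Mo σ (e + 1) := by
          rw [mem_Mo]
          rw [Finsupp.degree_eq_weight_one]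
          exact hq (mem_support_iff.mp hν)
        have h5 : ν o = 0 := pderiv_of_mem hq0 hν
        refine ⟨hm ν h4 h5 z hz3, ?_⟩
        have h6 : S.m (monomial ν 1) z ∈ GZ S o K s i (e + 1 + (e + 1)) :=
          (mul_kappa C Q 0 hz3 h4 h5).1
        rw [GZ_eq C] at h6
        rwa [show 2 * (e + 1) = e + 1 + (e + 1) by ring]
      rw [h1]
      exact Submodule.sum_mem _ fun ν hν => Submodule.smul_mem _ _ (h3 ν hν)
  rw [GZ_eq C, ← e1]
  exact key.trans inf_le_left

end Pool.Agent.H20.OPF
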